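import Pool.Agent.H.MP_9b0515_pr.D

namespace Pool.Agent.Results.MP_9b0515_pr.False3

open Pool.Agent.H.MP_9b0515_pr

theorem result : Periodic (halfSpace (n := 3) fun _ => 1) ∧ ∃ Ω : Set (Fin 3 → ℝ), MeasurableSet Ω ∧ Periodic Ω ∧
    stab (2 / 3) (halfSpace (n := 3) fun _ => 1) < stab (2 / 3) Ω := by
  have e : halfSpace (n := 3) (fun _ => 1) = {x | 0 ≤ Real.sin (Real.pi * hh 0 x)} := by simp [halfSpace, hh]
  obtain ⟨ε, h⟩ := final
  exact e ▸ ⟨hh_per 0, _, measurableSet_le measurable_const (by fun_prop), hh_per ε, h⟩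

end Pool.Agent.Results.MP_9b0515_pr.False3
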